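import Pool.Agent.PSF.Top
import Pool.Agent.PSF.FinA
import Pool.Agent.PSF.FinM

/-!
# Positselski's question: the first layer, and reduction to cyclic Kummer extensions

Let `K` be a field containing a primitive `ℓ`-th root of unity, `L = ℓ^∞√K`, and let `β(x, y)` be
the compatible sequence of the classes of the cyclic algebras `(x, y)` of degrees `ℓ ^ M`
(`Exist.lean`; defined by Kummer characters, with values in a group of functions modulo
coboundaries). The map `β` is bimultiplicative, satisfies the Steinberg relation, and takes values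
in a torsion free, `ℓ`-adically separated group; it vanishes on `(x, y)` if and only if all these
algebras are split. It follows that `β` kills all elements with `ℓ ^ n`-th roots in `L` for all
`n`, in particular the elements of `K`, and that `β(x, y) = β(x, x + y) + β(x + y, y)`.

Outline of the proof.

1. *Linear generators* (`Lin.lean`): if `C ^ ℓ ∈ F` then the group `F(C)ˣ` is generated by `Fˣ` and
   the elements `C - a` with `a ∈ F`; this holds for `ℓ = 2`, for `ℓ = 3` (every element of a cubic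
   extension is a quotient of two linear polynomials in `C`), and in general if all irreducible
   polynomials over `K` have `ℓ`-power degree.
2. *Trace lemma* (`Trace.lean`): if `g` generates the Galois group of `F(C) / F` then
   `∑ β(g ^ t z, g ^ t w)` is a sum of symbols of elements of `F`, for all `z, w` in `F(C)`. By 1 it
   is enough to treat `(x, y)` and `(x, C - b)` with `x` in `F`, and
   `β(C - a, C - b) = β(a - b, C - b) - β(a - b, C - a)`.
3. *Radon transform* (`Radon.lean`): let `E / K` be finite abelian of `ℓ`-power degree, and not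
   cyclic. Its group contains `A = (ℤ/ℓ) ^ 2`, and `ℓ = ∑ N_H - N_A` in `ℤ[A]`, where `H` runs
   through the subgroups of order `ℓ`. By the trace lemma `ℓ β(z, w)` is a sum of symbols of
   proper subextensions. By induction `β` vanishes on `E` if it vanishes on all cyclic
   subextensions of `E / K`.
4. For cyclic extensions `K(C)`, `C ^ ℓ ∈ K`, the elements of `K` are killed, and hence
   `β(C - a, C - b) = β(a - b, C - b) - β(a - b, C - a) = 0`.
-/

namespace Pool.Agent.Results.MP_e2e485_nt.FirstLayer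

open Pool.Agent.Helper26 Pool.Agent.PSF IntermediateField

universe u

/-- The cyclic algebras `(x, y)` over `F` of all degrees `ℓ ^ M` are split, for every primitive
`ℓ ^ M`-th root of unity in `F`. -/
def SplitAll (ℓ : ℕ) {F : Type u} [Field F] (x y : F) : Prop :=
  ∀ (M : ℕ) (ξ : F), IsPrimitiveRoot ξ (ℓ ^ M) → IsSplit (ℓ ^ M) ξ x y

/-- `x ^ n` lies in `K`. -/
def PowIn (n : ℕ) (K : Type u) [Field K] {F : Type u} [Field F] [Algebra K F] (x : F) : Prop :=
  ∃ c : K, x ^ n = algebraMap K F c

/-- All symbols of nonzero elements of the intermediate field `E` are split at all levels. -/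
def Vanish (ℓ : ℕ) {K F : Type u} [Field K] [Field F] [Algebra K F]
    (E : IntermediateField K F) : Prop :=
  ∀ x ∈ E, ∀ y ∈ E, x ≠ 0 → y ≠ 0 → SplitAll ℓ x y

/-- Let `ℓ` be a prime, `K` a field with a primitive `ℓ`-th root of unity and `L = ℓ^∞√K`. Suppose
that `ℓ = 2` or `ℓ = 3`, or that all irreducible polynomials over `K` have `ℓ`-power degree.
Then all symbols `(x, y)` with `x, y` in `K(ℓ√K)` are split over `L`, at all levels `ℓ ^ M`.
Moreover, if `K` contains a primitive `ℓ ^ m`-th root of unity then all symbols of `K(ℓ^m√K)` are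
split over `L` if and only if this is so for the subfields `K(θ)`, `θ ^ (ℓ ^ m) ∈ K`; and if `K`
contains all roots of unity of `ℓ`-power order then all symbols of `L` are split if and
only if this is so for the subfields `K(θ)`, where `θ` is a radical over `K`. -/
theorem result (ℓ : ℕ) [Fact ℓ.Prime] (K : Type u) [Field K] (ζ : K) (_ : IsPrimitiveRoot ζ ℓ)
    (_ : ℓ = 2 ∨ ℓ = 3 ∨ ∀ f : Polynomial K, Irreducible f → ∃ k : ℕ, f.natDegree = ℓ ^ k) :
    Vanish ℓ (adjoin K {x : radClosure ℓ K | PowIn ℓ K x}) ∧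
    (∀ m : ℕ, (∃ ξ : K, IsPrimitiveRoot ξ (ℓ ^ m)) →
      ((∀ θ : radClosure ℓ K, PowIn (ℓ ^ m) K θ → Vanish ℓ (adjoin K {θ})) ↔
        Vanish ℓ (adjoin K {x : radClosure ℓ K | PowIn (ℓ ^ m) K x}))) ∧
    ((∀ m : ℕ, ∃ ξ : K, IsPrimitiveRoot ξ (ℓ ^ m)) →
      ((∀ (m : ℕ) (θ : radClosure ℓ K), PowIn (ℓ ^ m) K θ → Vanish ℓ (adjoin K {θ})) ↔
        ∀ x y : radClosure ℓ K, x ≠ 0 → y ≠ 0 → SplitAll ℓ x y)) := by
  rename_i hζ hlin
  have hℓ : ℓ.Prime := Fact.out
  have hK := natCast_ne_zero_of_prim hℓ hζ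
  obtain ⟨V, hV, S, hS, hrad, hkill⟩ := exists_symSys_rad hℓ hK
  have hred : ∀ (m : ℕ) (ξ : K), IsPrimitiveRoot ξ (ℓ ^ m) →
      (∀ θ : radClosure ℓ K, PowIn (ℓ ^ m) K θ → Vanish ℓ (adjoin K {θ})) →
        Vanish ℓ (adjoin K {x : radClosure ℓ K | PowIn (ℓ ^ m) K x}) := by
    intro m ξ hξ h x hx y hy hx0 hy0
    refine (hS x y hx0 hy0).1 (reductionM hℓ hK hlin hζ hξ S ?_ hx hy hx0 hy0)
    intro C hC a ha b hb ha0 hb0
    exact (hS a b ha0 hb0).2 (h C hC a ha b hb ha0 hb0)
  refine ⟨?_, ?_, ?_⟩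
  · intro x hx y hy hx0 hy0
    exact (hS x y hx0 hy0).1 (layer1 hℓ hK hlin hζ S hkill hx hy hx0 hy0)
  · rintro m ⟨ξ, hξ⟩
    refine ⟨hred m ξ hξ, ?_⟩
    intro h θ hθ x hx y hy hx0 hy0
    have hle : adjoin K {θ} ≤ adjoin K {x : radClosure ℓ K | PowIn (ℓ ^ m) K x} :=
      adjoin.mono K _ _ (Set.singleton_subset_iff.2 hθ)
    exact h x (hle hx) y (hle hy) hx0 hy0
  · intro hμ
    refine ⟨?_, fun h m θ _ x _ y _ hx0 hy0 => h x y hx0 hy0⟩
    intro h x y hx0 hy0
    obtain ⟨m, T, -, hT, hx, hy⟩ := rad_gen hℓ x y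
    obtain ⟨ξ, hξ⟩ := hμ m
    have hle : adjoin K T ≤ adjoin K {x : radClosure ℓ K | PowIn (ℓ ^ m) K x} :=
      adjoin.mono K _ _ hT
    exact hred m ξ hξ (h m) x (hle hx) y (hle hy) hx0 hy0

end Pool.Agent.Results.MP_e2e485_nt.FirstLayer
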