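import Pool.Agent.Helper26.HenselField

/-!
# Positselski's question for henselian fields of residue characteristic `ℓ`

Let `K` be a field containing a primitive `ℓ`-th root of unity `ζ`, with a henselian valuation
(of arbitrary rank) of residue characteristic `ℓ`.  Then every cyclic algebra `(a, b)_ζ` over
`L = ℓ^∞√K` splits.  By the equivalence recalled in the problem file, the maximal pro-`ℓ` Galois
group of `L` is then a free pro-`ℓ` group.

Outline of the proof.

1. Every element `a ≠ 0` of `L` can be written `a = δ * a'`, where `δ` is a radical over `K`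
   (some `ℓ ^ n`-th power of `δ` lies in `K`), `a'` is a sum of radicals of value at most one,
   and `a'` is not infinitely small with respect to `ℓ`.
2. A sum of radicals of value at most one lies, for every `N`, in the subring of all
   `∑ k ≤ N, ℓ ^ k * z k ^ ℓ ^ (N - k)` (`z k` in the valuation ring of `L`), the image of the
   `N`-th ghost component of the Witt vectors of the valuation ring.  Elements of this ring of value
   at most `v ℓ` are `ℓ` times an element of the ring for `N - 1`.  It follows that
   `a = c ^ ℓ * (1 + x)` with `c, x` in `L` and `v x < v ℓ`.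
3. If `v t < v ℓ ^ 2` then `1 + t` is an `ℓ`-th power in `L`, by Galois invariance of `v`.
4. So for `a = c ^ ℓ * (1 - x)`, `b = d ^ ℓ * (1 - y)` the element
   `(1 - x) + x * (1 - y) = 1 - x * y` is an `ℓ`-th power, and the Steinberg relation shows that
   `1 - y` is a norm from the Kummer algebra of `1 - x`, which splits the cyclic algebra.
-/

namespace Pool.Agent.Results.MP_e2e485_nt.HenselianResidueChar

open Pool.Agent.Helper26

universe u w

/-- Let `ℓ` be a prime, `K` a field containing a primitive `ℓ`-th root of unity `ζ`, and `v` a
valuation on the algebraic closure of `K`, with values in any linearly ordered commutative group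
with zero, invariant under all automorphisms over `K` (which means that its restriction to `K` is
henselian), such that `v ℓ < 1`.  Then every cyclic algebra `(a, b)_ζ` over `L = ℓ^∞√K`, with
`a, b ≠ 0` in `L`, is split. -/
theorem result (ℓ : ℕ) [Fact ℓ.Prime] (K : Type u) [Field K] (ζ : K) (_ : IsPrimitiveRoot ζ ℓ)
    (Γ₀ : Type w) [LinearOrderedCommGroupWithZero Γ₀] (v : Valuation (AlgebraicClosure K) Γ₀)
    (_ : ∀ (σ : AlgebraicClosure K ≃ₐ[K] AlgebraicClosure K) (x : AlgebraicClosure K),
      v (σ x) = v x)
    (_ : v (ℓ : AlgebraicClosure K) < 1)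
    (a b : radClosure ℓ K) (_ : a ≠ 0) (_ : b ≠ 0) :
    IsSplit ℓ (algebraMap K (radClosure ℓ K) ζ) a b :=
  Val.isSplit_of_invariant ℓ K v ζ ‹_› ‹_› ‹_› a b ‹_› ‹_›

end Pool.Agent.Results.MP_e2e485_nt.HenselianResidueChar
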