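import Pool.Agent.PSF.Top
import Pool.Agent.PSF.Binom
import Pool.Agent.PSF.FinU
import Pool.Agent.PSG.Tri

/-!
# Positselski's question: symbols of binomials and trinomials in radicals

Let `K` be a field containing a primitive `ℓ`-th root of unity and `L = ℓ^∞√K`. If `K` has positive
characteristic then the cyclic algebras `(x, y)` of all degrees `ℓ ^ M` over `L` are split for all `x, y` in the
`K`-span of three radicals over `K` of arbitrary `ℓ`-power exponents. The cyclic algebras
`(1 - u, 1 - v)`, `u, v` radicals, are also split if `K` contains all roots of unity of `ℓ`-power order and, for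
some prime `p ≠ ℓ`, the group `Kˣ` is `p`-divisible and `K` contains all roots of unity of `p`-power order.
Consequence in both cases: the symbols `(1 - u, z)` with `z` in `K(ℓ√K)` vanish (for `ℓ = 2, 3` and for
`ℓ`-special `K`).

Outline of the proof. Let `β(x, y)` be the compatible sequence of the classes of the cyclic
algebras `(x, y)` of degrees `ℓ ^ M`, an element of a torsion free `ℓ`-adically separated group. The
map `β` is bimultiplicative, satisfies the Steinberg relation and kills radicals.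

*Frobenius collinearity* (characteristic `p`): let `Q > 1` be a power of `p` which is congruent to `1` modulo the
exponents of the radicals `u, v, w`. Then `x ↦ x ^ Q` maps the span of `u, v, w` to itself. For
`x, y` in the span, `x`, `y`, `x ^ Q`, `y ^ Q` are linearly dependent, so the lines `⟨x, y⟩` and
`⟨x ^ Q, y ^ Q⟩` meet in some `m`; from `β(x, y) = β(x, m) + β(m, y)` and
`Q ^ 2 β(x, y) = Q (β(x, m) + β(m, y))` one gets `β(x, y) = 0`.

*Binomials* (the other case): choose compatible systems `X_n, Y_n, Z_n` of `ℓ ^ n`-th roots of `u`, `v` and `1`.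
Then `(i, j) ↦ β(1 - Z_n ^ i X_n, 1 - Z_n ^ j Y_n)` is a measure `μ` on `ℤ_ℓ × ℤ_ℓ` by the distribution
relation `∏ (1 - ξ x) = 1 - x ^ ℓ`. For radicals `x, y` with `x y ≠ 1` one has
`β(1 - x, 1 - y) = β(1 - x, 1 - x y) + β(1 - x y, 1 - y)`, which shows that the projections of `μ` along the lines
`q i + j = const`, `q = p ^ e`, vanish. The polynomials in `q i + j`, for infinitely many `q`, span
rationally all polynomials in `i, j`; so `μ = 0`.
-/

namespace Pool.Agent.Results.MP_e2e485_nt.RadicalSpans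

open Pool.Agent.Helper26 Pool.Agent.PSF IntermediateField

universe u

/-- The cyclic algebras `(x, y)` over `F` of all degrees `ℓ ^ M` are split, for every primitive
`ℓ ^ M`-th root of unity in `F`. -/
def SplitAll (ℓ : ℕ) {F : Type u} [Field F] (x y : F) : Prop :=
  ∀ (M : ℕ) (ξ : F), IsPrimitiveRoot ξ (ℓ ^ M) → IsSplit (ℓ ^ M) ξ x y

/-- `x ^ n` lies in `K`. -/
def PowIn (n : ℕ) (K : Type u) [Field K] {F : Type u} [Field F] [Algebra K F] (x : F) : Prop :=
  ∃ c : K, x ^ n = algebraMap K F c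

/-- `x` is a radical over `K`: some `ℓ ^ n`-th power of `x` lies in `K`. -/
def Radical (ℓ : ℕ) (K : Type u) [Field K] {F : Type u} [Field F] [Algebra K F] (x : F) : Prop :=
  ∃ n : ℕ, PowIn (ℓ ^ n) K x

/-- `K` contains primitive `ℓ ^ n`-th roots of unity for all `n`. -/
def RootsOfUnity (ℓ : ℕ) (K : Type u) [Field K] : Prop :=
  ∀ n : ℕ, ∃ ξ : K, IsPrimitiveRoot ξ (ℓ ^ n)

/-- Let `ℓ` be a prime, `K` a field with a primitive `ℓ`-th root of unity, and `L = ℓ^∞√K`. (1) If `K` has
positive characteristic then `(x, y)` is split at all levels for all nonzero `x, y` in the `K`-span of three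
radicals in `L` over `K`. (2) Suppose that `K` has positive characteristic, or that `K` contains all roots of
unity of `ℓ`-power and `p`-power order and `Kˣ` is `p`-divisible, for some prime `p ≠ ℓ`. Then
`(1 - u, 1 - v)` is split at all levels for all radicals `u, v ≠ 1` in `L` over `K`; and if `ℓ = 2` or
`ℓ = 3` or all irreducible polynomials over `K` have `ℓ`-power degree then `(1 - u, z)` is split at all levels
for all radicals `u ≠ 1` and all nonzero `z` in `K(ℓ√K)`. -/
theorem result (ℓ : ℕ) [Fact ℓ.Prime] (K : Type u) [Field K] (ζ : K) (_ : IsPrimitiveRoot ζ ℓ) :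
    ((∃ p : ℕ, p.Prime ∧ CharP K p) →
      ∀ u v w : radClosure ℓ K, Radical ℓ K u → Radical ℓ K v → Radical ℓ K w →
        ∀ x ∈ Submodule.span K {u, v, w}, ∀ y ∈ Submodule.span K {u, v, w},
          x ≠ 0 → y ≠ 0 → SplitAll ℓ x y) ∧
    (((∃ p : ℕ, p.Prime ∧ CharP K p) ∨ (RootsOfUnity ℓ K ∧
      ∃ p : ℕ, p.Prime ∧ p ≠ ℓ ∧ (∀ a : K, ∃ b : K, b ^ p = a) ∧ RootsOfUnity p K)) →
      (∀ u v : radClosure ℓ K, Radical ℓ K u → Radical ℓ K v → u ≠ 1 → v ≠ 1 →
        SplitAll ℓ (1 - u) (1 - v)) ∧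
      ((ℓ = 2 ∨ ℓ = 3 ∨ ∀ f : Polynomial K, Irreducible f → ∃ k : ℕ, f.natDegree = ℓ ^ k) →
        ∀ u : radClosure ℓ K, Radical ℓ K u → u ≠ 1 →
          ∀ z ∈ adjoin K {x : radClosure ℓ K | PowIn ℓ K x}, z ≠ 0 → SplitAll ℓ (1 - u) z)) := by
  rename_i hζ
  have hℓ : ℓ.Prime := Fact.out
  have hK := natCast_ne_zero_of_prim hℓ hζ
  obtain ⟨V, hV, S, hS, hrad, hkill⟩ := exists_symSys_rad hℓ hK
  refine ⟨?_, ?_⟩
  · rintro ⟨p, hp, hcp⟩ u v w hu hv hw x hx y hy hx0 hy0
    exact (hS x y hx0 hy0).1 (Pool.Agent.PSG.tri hp hℓ hK hkill hu hv hw hx hy hx0 hy0)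
  · intro hP
    have hbin : ∀ u v : radClosure ℓ K, IsRadl ℓ K _ u → IsRadl ℓ K _ v → u ≠ 1 → v ≠ 1 →
        S.β (1 - u) (1 - v) = 0 := fun u v hu hv hu1 hv1 =>
      binom hℓ hK S hkill (rad_root hℓ) (rad_mu hℓ hK) hP hu hv hu1 hv1
    refine ⟨?_, ?_⟩
    · intro u v hu hv hu1 hv1
      exact (hS _ _ (sub_ne_zero.2 (Ne.symm hu1)) (sub_ne_zero.2 (Ne.symm hv1))).1
        (hbin u v hu hv hu1 hv1)
    · intro hlin u hu hu1 z hz hz0
      exact (hS _ _ (sub_ne_zero.2 (Ne.symm hu1)) hz0).1
        (layerU hℓ hK hlin hζ S hkill hrad hbin hu hu1 hz hz0)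

end Pool.Agent.Results.MP_e2e485_nt.RadicalSpans
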