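import Pool.Agent.PSG.Sec
import Pool.Agent.PSG.Fsp
import Pool.Agent.PSF.Binom
import Pool.Agent.PSF.FinQ

/-!
# Positselski's question: the second layer in positive characteristic

Let `K` be a field of characteristic `p > 0` containing a primitive `ℓ`-th root of unity, all of whose
irreducible polynomials have `ℓ`-power degree (the absolute Galois group of `K` is a pro-`ℓ` group;
these are the fields of Bogomolov's conjecture), and `L = ℓ^∞√K`. We show that the
cyclic algebras `(x, y)` of all degrees `ℓ ^ M` over `L` are split for `x = f(C)`, `y = g(C)`, where `C` is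
a radical over `K` of arbitrary exponent and `f`, `g` are polynomials over `K` of degree `< ℓ ^ 2`, and for
`x, y` in `F + K C`, `F` a subfield of `L` of degree `ℓ` over `K`. If `K` contains a primitive
`ℓ ^ 2`-th root of unity then all `(x, y)` with `x`, `y` in the field generated over `K` by all
`ℓ ^ 2`-th roots of elements of `K` are split (for `ℓ = 2` for all `K` of characteristic `p > 2` containing `√-1`).

Outline of the proof. `β(x, y)`: the compatible sequence of the classes of the cyclic algebras `(x, y)`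
of degrees `ℓ ^ M`, an element of a torsion free `ℓ`-adically separated group; `β` is
bimultiplicative, satisfies the Steinberg relation and kills `K`. Let `Q > 1` be a power of `p`,
`Q ≡ 1` modulo the exponent of the radical `C`, so that `C ^ Q = κ C` with `κ ∈ K`.

1. *Frobenius collinearity.* If `x`, `y`, `x ^ Q`, `y ^ Q` are linearly dependent over `K` then
   `β(x, y) = 0`: the lines `⟨x, y⟩` and `⟨x ^ Q, y ^ Q⟩` meet in some `m`, and
   `β(x, y) = β(x, m) + β(m, y)`, `Q ^ 2 β(x, y) = Q (β(x, m) + β(m, y))`.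
2. Let `F / K` be of degree `ℓ`, `r ∈ F`, `v = r ^ Q - κ r`. By 1, `β(C - r, z) = 0` if
   `v`, `z`, `z ^ Q` are dependent. This is a rational curve `z(ρ)` in the projective space of `F`, of degree
   `1 + Q + ⋯ + Q ^ (m - 2)`, prime to `ℓ`.
3. By a theorem of Pfister, `ℓ - 1` forms of degree prime to `ℓ` in `ℓ` variables over `K` have a nontrivial common
   zero. It follows that every `y ∈ F` is up to a factor in `K` a product of powers of points of the
   curve and of its leading coefficient. So `β(C - r, y) = 0` for all `r, y ∈ F`.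
4. Polynomials of degree `< ℓ ^ 2` over `K` have factors of degree `1` and `ℓ`, and the latter split in Kummer extensions of
   degree `ℓ`; two different factors of degree `ℓ` differ by a product of linear ones. A Radon
   transform argument on the Galois group reduces the second layer to the fields `K(C)`.
-/

namespace Pool.Agent.Results.MP_e2e485_nt.SecondLayer

open Pool.Agent.Helper26 Pool.Agent.PSF Pool.Agent.PSG IntermediateField Polynomial

universe u

/-- The cyclic algebras `(x, y)` over `F` of all degrees `ℓ ^ M` are split, for every primitive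
`ℓ ^ M`-th root of unity in `F`. -/
def SplitAll (ℓ : ℕ) {F : Type u} [Field F] (x y : F) : Prop :=
  ∀ (M : ℕ) (ξ : F), IsPrimitiveRoot ξ (ℓ ^ M) → IsSplit (ℓ ^ M) ξ x y

/-- `x ^ n` lies in `K`. -/
def PowIn (n : ℕ) (K : Type u) [Field K] {F : Type u} [Field F] [Algebra K F] (x : F) : Prop :=
  ∃ c : K, x ^ n = algebraMap K F c

/-- `x` is a radical over `K`: some `ℓ ^ n`-th power of `x` lies in `K`. -/
def Radical (ℓ : ℕ) (K : Type u) [Field K] {F : Type u} [Field F] [Algebra K F] (x : F) : Prop :=
  ∃ n : ℕ, PowIn (ℓ ^ n) K x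

/-- The cyclic algebras `(x, y)` of all degrees `ℓ ^ M` are split for all nonzero `x, y` in `S`. -/
def Vanish (ℓ : ℕ) {F : Type u} [Field F] (S : Set F) : Prop :=
  ∀ x ∈ S, ∀ y ∈ S, x ≠ 0 → y ≠ 0 → SplitAll ℓ x y

/-- All irreducible polynomials over `K` have `ℓ`-power degree. -/
def Special (ℓ : ℕ) (K : Type u) [Field K] : Prop :=
  ∀ f : K[X], Irreducible f → ∃ k : ℕ, f.natDegree = ℓ ^ k

/-- The values at `C` of the polynomials over `K` of degree `< d`. -/
def Values (K : Type u) [Field K] {F : Type u} [Field F] [Algebra K F] (C : F) (d : ℕ) : Set F :=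
  {x | ∃ f : K[X], f.natDegree < d ∧ x = aeval C f}

/-- The elements `r + a C`, `r ∈ E`, `a ∈ K`. -/
def Plus {K F : Type u} [Field K] [Field F] [Algebra K F] (E : IntermediateField K F) (C : F) :
    Set F :=
  {x | ∃ r ∈ E, ∃ a : K, x = r + a • C}

/-- The field generated over `K` by all `n`-th roots of elements of `K` in `L = ℓ^∞√K`. -/
noncomputable def RootField (ℓ n : ℕ) (K : Type u) [Field K] : IntermediateField K (radClosure ℓ K) :=
  adjoin K {x : radClosure ℓ K | PowIn n K x}

/-- Let `ℓ` be a prime and `K` a field of characteristic `p > 0` with a primitive `ℓ`-th root of unity,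
`L = ℓ^∞√K`. If all irreducible polynomials over `K` have `ℓ`-power degree then the algebras
`(f(C), g(C))` are split at all levels for every radical `C` in `L` over `K` and polynomials `f`, `g`
over `K` of degree `< ℓ ^ 2`, and so are the algebras `(r + a C, s + b C)` for every subfield `F` of `L` of degree `ℓ`
over `K`, `r, s ∈ F`, `a, b ∈ K`. If `K` has a primitive `ℓ ^ 2`-th root of unity and, unless
`ℓ = 2`, all irreducible polynomials over `K` have `ℓ`-power degree, then `(x, y)` is split at all levels for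
all nonzero `x, y` in the field generated over `K` by all `ℓ ^ 2`-th roots of elements of `K`. -/
theorem result (ℓ : ℕ) [Fact ℓ.Prime] (p : ℕ) [Fact p.Prime] (K : Type u) [Field K] [CharP K p]
    (ζ : K) (_ : IsPrimitiveRoot ζ ℓ) :
    (Special ℓ K → ∀ C : radClosure ℓ K, Radical ℓ K C →
      Vanish ℓ (Values K C (ℓ ^ 2)) ∧
      ∀ F : IntermediateField K (radClosure ℓ K), Module.finrank K F = ℓ →
        Vanish ℓ (Plus F C)) ∧
    ((∃ ξ : K, IsPrimitiveRoot ξ (ℓ ^ 2)) → (ℓ = 2 ∨ Special ℓ K) →
      Vanish ℓ (RootField ℓ (ℓ ^ 2) K : Set (radClosure ℓ K))) := by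
  rename_i hℓ' hp' _ _ hζ
  have hℓ : ℓ.Prime := Fact.out
  have hp : p.Prime := Fact.out
  have hK := natCast_ne_zero_of_prim hℓ hζ
  obtain ⟨V, hV, S, hS, hrad, hkill⟩ := exists_symSys_rad hℓ hK
  have hroot : ∀ c : K, ∃ x : radClosure ℓ K, x ^ ℓ = algebraMap K _ c := fun c =>
    rad_root hℓ _ ⟨0, c, by rw [pow_zero, pow_one]⟩
  have hbin : ∀ u v : radClosure ℓ K, IsRadl ℓ K _ u → IsRadl ℓ K _ v → u ≠ 1 → v ≠ 1 →
      S.β (1 - u) (1 - v) = 0 := fun u v hu hv hu1 hv1 =>
    binom hℓ hK S hkill (rad_root hℓ) (rad_mu hℓ hK) (Or.inl ⟨p, hp, inferInstance⟩) hu hv hu1 hv1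
  refine ⟨?_, ?_⟩
  · intro hs C hC
    refine ⟨?_, ?_⟩
    · rintro _ ⟨f, hf, rfl⟩ _ ⟨g, hg, rfl⟩ hf0 hg0
      exact (hS _ _ hf0 hg0).1 (pol hp hℓ hs hK hζ hroot hkill hC hf hg hf0 hg0)
    · rintro F hF x ⟨r, hr, a, hx⟩ y ⟨s, hs', b, hy⟩ hx0 hy0
      refine (hS _ _ hx0 hy0).1 (fsp hp hℓ hs hK hζ hroot hkill hC F hF ⟨r, hr, a, ?_⟩
        ⟨s, hs', b, ?_⟩ hx0 hy0)
      · rw [hx, Algebra.smul_def]
      · rw [hy, Algebra.smul_def]
  · rintro ⟨ξ, hξ⟩ hs x hx y hy hx0 hy0
    rcases hs with rfl | hs
    · have hp2 : p ≠ 2 := by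
        rintro rfl
        exact hK (CharP.cast_eq_zero K 2)
      have h4 : (2 : ℕ) ^ 2 = 4 := by norm_num
      have hi : (ξ : K) ^ 2 = -1 := by
        have h1 : ξ ^ 4 = 1 := by
          have h2 := hξ.pow_eq_one
          rwa [h4] at h2
        have h3 : ξ ^ 2 ≠ 1 := hξ.pow_ne_one_of_pos_of_lt two_ne_zero (by norm_num)
        have h5 : (ξ ^ 2 - 1) * (ξ ^ 2 + 1) = 0 := by linear_combination h1
        rcases mul_eq_zero.1 h5 with h6 | h6
        · exact absurd (sub_eq_zero.1 h6) h3
        · exact eq_neg_of_add_eq_zero_left h6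
      rw [h4] at hx hy
      exact (hS x y hx0 hy0).1 (layer2 hp hp2 hi S hkill hrad hbin hx hy hx0 hy0)
    · exact (hS x y hx0 hy0).1 (sec hp hℓ hs hK hξ hroot hkill hx hy hx0 hy0)

end Pool.Agent.Results.MP_e2e485_nt.SecondLayer
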